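import Mathlib
import Pool.Agent.Q49.PE.Erg
import Pool.Agent.H165R3.Birk

set_option autoImplicit false

/-!
# The pointwise ergodic theorem along the basins of the cycles of the 3x+1 map

Let `S` be invariant under the 3x+1 map and its inverse (for example the basin of a cycle), of density
`δ` among the integers of sign `s`. For every bounded weight `w` whose means over windows of a length
`H ≤ N ^ θ` are mostly close to a constant, the sum of `(1_S (s n) - δ) w n` over `n ≤ N` is at most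
`ε N`, uniformly in `S`, `w` and `H`. Hence for every measure preserving transformation `R` of a
probability space and every integrable function `f`, for almost every point `x`, the averages of
`f (R ^ n x)` over the `n ≤ N` with `s n ∈ S` converge to the conditional expectation of `f`, for ALL
`S` that contain an integer of sign `s`, with a rate that does not depend on `S`. For uniquely ergodic
transformations and continuous functions this holds for every point, uniformly. All cycles are known if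
for some ergodic transformation and set `A` of positive measure, with positive probability, almost no
`n` with `R ^ n x ∈ A` (up to some large `N`) is such that `s n` enters an unknown cycle.

Method: the starting file `SparseCoalescence` of MP_d02c56_nt gives that the trajectories of `s n` and
`s (n + h)`, `h ≤ N ^ θ`, have merged for all but `ε N` of the `n ≤ N`. The error terms are controlled
by the pointwise ergodic theorem for the truncated function and its window means.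
-/

namespace Pool.Agent.Results.MP_edb5be_nt.PointwiseErgodicTheorem

open Filter Topology MeasureTheory

/-- The 3x+1 map on the integers. -/
def T (x : ℤ) : ℤ := if x % 2 = 0 then x / 2 else (3 * x + 1) / 2

/-- `S` is invariant under `T` and its inverse, for example the set of the integers whose trajectory
enters a given cycle. -/
def Invariant (S : Set ℤ) : Prop := ∀ x : ℤ, x ∈ S ↔ T x ∈ S

/-- Among the integers of sign `s` the set `S` has natural density `δ`. -/
def HasDensity (s : ℤ) (S : Set ℤ) (δ : ℝ) : Prop :=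
  Tendsto (fun N : ℕ => ({n : ℤ | 0 < s * n ∧ s * n ≤ N ∧ n ∈ S}.ncard : ℝ) / N) atTop (𝓝 δ)

/-- The sum of `w n` over the `n` in `[1, N]` with `s n ∈ S`. -/
noncomputable def sumAlong (s : ℤ) (S : Set ℤ) (N : ℕ) (w : ℕ → ℝ) : ℝ :=
  ∑ n ∈ Finset.Icc 1 N, S.indicator (fun _ => (1 : ℝ)) (s * n) * w n

/-- The number of the `n` in `[1, N]` with `s n ∈ S`. -/
noncomputable def number (s : ℤ) (S : Set ℤ) (N : ℕ) : ℕ :=
  {n : ℕ | 1 ≤ n ∧ n ≤ N ∧ s * (n : ℤ) ∈ S}.ncard

/-- The union of the five known cycles. -/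
def Known : Finset ℤ := {1, 2, 0, -1, -5, -7, -10, -17, -25, -37, -55, -82, -41, -61, -91, -136,
  -68, -34}

/-- The integers whose trajectory enters a cycle other than the five known ones. -/
def Other : Set ℤ :=
  {x | ∃ j p : ℕ, 1 ≤ p ∧ T^[p] (T^[j] x) = T^[j] x ∧ T^[j] x ∉ Known}

/-- There are an ergodic transformation `R` of a probability space and a set `A` of positive measure
such that with positive probability `x` has the property that for infinitely many `N` only `o(N)` of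
the `n ≤ N` with `R ^ n x ∈ A` are such that `s n ∈ U`. -/
def Rare (s : ℤ) (U : Set ℤ) : Prop :=
  ∃ (X : Type) (_ : MeasurableSpace X) (μ : Measure X) (R : X → X) (A : Set X) (ψ : ℕ → ℝ),
    IsProbabilityMeasure μ ∧ Ergodic R μ ∧ MeasurableSet A ∧ 0 < μ A ∧ Tendsto ψ atTop (𝓝 0) ∧
    ¬ ∀ᵐ x ∂μ, ¬ ∃ᶠ N : ℕ in atTop,
      ({n : ℕ | 1 ≤ n ∧ n ≤ N ∧ s * (n : ℤ) ∈ U ∧ R^[n] x ∈ A}.ncard : ℝ) ≤ ψ N * N

/-! ### proofs -/

open Pool.Agent.Q49.PE Finset

theorem known_closed : ∀ x ∈ Known, T x ∈ Known := by decide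

theorem known_iter (j : ℕ) : ∀ x ∈ Known, T^[j] x ∈ Known := by
  induction j with
  | zero => intro x hx; exact hx
  | succ j ih => intro x hx; rw [Function.iterate_succ_apply]; exact ih _ (known_closed x hx)

theorem other_inv : Invariant Other := by
  intro x
  constructor
  · rintro ⟨j, p, hp, h1, h2⟩
    cases j with
    | zero =>
      refine ⟨0, p, hp, ?_, ?_⟩
      · change T^[p] (T x) = T x
        rw [← Function.iterate_succ_apply, Function.iterate_succ_apply']
        exact congrArg T h1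
      · intro h3
        apply h2
        change T x ∈ Known at h3
        change x ∈ Known
        have h4 := known_iter (p - 1) _ h3
        rw [← Function.iterate_succ_apply, show (p - 1).succ = p by omega] at h4
        have h5 : T^[p] x = x := h1
        rwa [h5] at h4
    | succ j =>
      rw [Function.iterate_succ_apply] at h1 h2
      exact ⟨j, p, hp, h1, h2⟩
  · rintro ⟨j, p, hp, h1, h2⟩
    exact ⟨j + 1, p, hp, by rw [Function.iterate_succ_apply]; exact h1,
      by rw [Function.iterate_succ_apply]; exact h2⟩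

theorem inv_of {S : Set ℤ} (hS : Invariant S) : Pool.Agent.Q49.PE.Inv S := hS

theorem exists_density {s : ℤ} (hs : s = 1 ∨ s = -1) {S : Set ℤ} (hS : Invariant S) :
    ∃ δ : ℝ, HasDensity s S δ := by
  obtain ⟨δ, h, -⟩ := ((Pool.Agent.Results.MP_d02c56_nt.FourierUniformity.result.1 s hs).2.1 1 one_pos).choose_spec S
    (inv_C (inv_of hS))
  exact ⟨δ, h⟩

theorem along_eq (s : ℤ) (S : Set ℤ) (N : ℕ) (w : ℕ → ℝ) (δ : ℝ) :
    sumAlong s S N w - δ * ∑ n ∈ Icc 1 N, w n = ∑ n ∈ Icc 1 N, (g S (s * (n : ℤ)) - δ) * w n := by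
  unfold sumAlong
  rw [mul_sum, ← sum_sub_distrib]
  apply sum_congr rfl; intro n _
  unfold g
  ring

theorem window {s : ℤ} (hs : s = 1 ∨ s = -1) {ε : ℝ} (hε : 0 < ε) : ∃ θ : ℝ, 0 < θ ∧ ∃ N₀ : ℕ,
    ∀ S : Set ℤ, Invariant S → ∃ δ : ℝ, HasDensity s S δ ∧ ∀ N : ℕ, N₀ ≤ N → ∀ H : ℕ, 1 ≤ H →
      (H : ℝ) ≤ (N : ℝ) ^ θ → ∀ w : ℕ → ℝ, (∀ n, |w n| ≤ 1) → ∀ c : ℝ,
      |sumAlong s S N w - δ * ∑ n ∈ Icc 1 N, w n| ≤ ε * N +
        ∑ n ∈ Icc 1 N, |(H : ℝ)⁻¹ * ∑ h ∈ range H, w (n + h) - c| := by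
  obtain ⟨θ, hθ, N₀, h⟩ := principle hs hε
  refine ⟨θ, hθ, N₀, fun S hS => ?_⟩
  obtain ⟨δ, hδ⟩ := exists_density hs hS
  refine ⟨δ, hδ, fun N hN H hH hHN w hw c => ?_⟩
  rw [along_eq]
  exact h S hS δ hδ N hN H hH hHN w hw c

theorem number_eq (s : ℤ) (S : Set ℤ) (N : ℕ) : (number s S N : ℝ) = sumAlong s S N (fun _ => 1) := by
  classical
  have h : {n : ℕ | 1 ≤ n ∧ n ≤ N ∧ s * (n : ℤ) ∈ S} =
      (((Icc 1 N).filter (fun n : ℕ => s * (n : ℤ) ∈ S) : Finset ℕ) : Set ℕ) := by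
    ext n
    simp only [Set.mem_ofPred_eq, coe_filter, Finset.mem_Icc, and_assoc]
  unfold number sumAlong
  rw [h, Set.ncard_coe_finset, card_filter]
  push_cast
  apply sum_congr rfl; intro n _
  rw [Set.indicator_apply, mul_one]

theorem number_lim {s : ℤ} (hs : s = 1 ∨ s = -1) {S : Set ℤ} (hS : Invariant S) {δ : ℝ}
    (hδ : HasDensity s S δ) : Tendsto (fun N : ℕ => (number s S N : ℝ) / N) atTop (𝓝 δ) := by
  rw [Metric.tendsto_atTop]
  intro ε hε
  obtain ⟨N₀, h⟩ := mean_small hs (show 0 < ε / 2 by positivity)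
  refine ⟨N₀ + 1, fun N hN => ?_⟩
  have h1 := h S hS δ hδ N (by omega)
  have hN0 : (0 : ℝ) < N := by exact_mod_cast (by omega : 0 < N)
  have h2 : ∑ n ∈ Icc 1 N, (g S (s * (n : ℤ)) - δ) = number s S N - δ * N := by
    have h3 := along_eq s S N (fun _ => 1) δ
    rw [← number_eq] at h3
    simp only [mul_one, sum_const, Nat.card_Icc, Nat.add_sub_cancel, nsmul_eq_mul] at h3
    exact h3.symm
  rw [h2] at h1
  rw [Real.dist_eq]
  have h4 : (number s S N : ℝ) / N - δ = (number s S N - δ * N) / N := by field_simp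
  rw [h4, abs_div, abs_of_pos hN0, div_lt_iff₀ hN0]
  nlinarith

theorem pointwise_all {s : ℤ} (hs : s = 1 ∨ s = -1) {X : Type*} [MeasurableSpace X] {μ : Measure X}
    [IsProbabilityMeasure μ] {R : X → X} (hR : MeasurePreserving R μ μ) {f : X → ℝ} (hf : Integrable f μ) :
    ∀ᵐ x ∂μ,
      (∀ ε : ℝ, 0 < ε → ∃ N₀ : ℕ, ∀ S : Set ℤ, Invariant S → ∃ δ : ℝ, HasDensity s S δ ∧
        ∀ N : ℕ, N₀ ≤ N → |sumAlong s S N (fun n => f (R^[n] x)) - δ * ∑ n ∈ Icc 1 N, f (R^[n] x)| ≤ ε * N) ∧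
      (∀ S : Set ℤ, Invariant S → (∃ y ∈ S, 0 < s * y) →
        Tendsto (fun N : ℕ => sumAlong s S N (fun n => f (R^[n] x)) / number s S N) atTop
          (𝓝 ((μ[f | MeasurableSpace.invariants R]) x))) := by
  filter_upwards [pointwise hs hR hf, pointwise_lim hs hR hf] with x hx1 hx2
  refine ⟨fun ε hε => ?_, fun S hS hne => ?_⟩
  · obtain ⟨N₀, h⟩ := hx1 ε hε
    refine ⟨N₀, fun S hS => ?_⟩
    obtain ⟨δ, hδ⟩ := exists_density hs hS
    refine ⟨δ, hδ, fun N hN => ?_⟩
    rw [along_eq]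
    exact h S hS δ hδ N hN
  · obtain ⟨δ, hδ0, hδ⟩ := Pool.Agent.Results.MP_d02c56_nt.FourierUniformity.dens_pos hs (inv_C (inv_of hS)) hne
    have h1 := hx2 S hS δ hδ
    have h2 := number_lim hs hS hδ
    have h3 := h1.div h2 hδ0.ne'
    rw [mul_div_cancel_left₀ _ hδ0.ne'] at h3
    refine h3.congr' ?_
    filter_upwards [eventually_gt_atTop 0] with N hN
    have hN0 : (N : ℝ) ≠ 0 := by exact_mod_cast hN.ne'
    change ((N : ℝ)⁻¹ * (∑ n ∈ Icc 1 N, g S (s * (n : ℤ)) * f (R^[n] x))) / ((number s S N : ℝ) / N) = _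
    unfold sumAlong g
    rcases eq_or_ne (number s S N : ℝ) 0 with h0 | h0
    · rw [h0]; simp
    · field_simp

theorem uniform_all {s : ℤ} (hs : s = 1 ∨ s = -1) {X : Type*} {R : X → X} {f : X → ℝ} {B c : ℝ}
    (hB : ∀ x, |f x| ≤ B)
    (hc : ∀ ε : ℝ, 0 < ε → ∃ H₀ : ℕ, ∀ H : ℕ, H₀ ≤ H → ∀ x, |∑ h ∈ range H, f (R^[h] x) - c * H| ≤ ε * H)
    {ε : ℝ} (hε : 0 < ε) : ∃ N₀ : ℕ, ∀ S : Set ℤ, Invariant S → ∃ δ : ℝ, HasDensity s S δ ∧
      ∀ N : ℕ, N₀ ≤ N → ∀ x, |sumAlong s S N (fun n => f (R^[n] x)) - c * δ * N| ≤ ε * N := by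
  by_cases hX : Nonempty X
  swap
  · refine ⟨0, fun S hS => ?_⟩
    obtain ⟨δ, hδ⟩ := exists_density hs hS
    exact ⟨δ, hδ, fun N _ x => absurd ⟨x⟩ hX⟩
  obtain ⟨x₀⟩ := hX
  have hB0 : 0 ≤ B := (abs_nonneg _).trans (hB x₀)
  set K : ℝ := B + 1 with hK
  have hK0 : 0 < K := by rw [hK]; linarith
  obtain ⟨H₀, hH₀⟩ := hc (ε / 4) (by positivity)
  set H : ℕ := H₀ + 1 with hH
  have hHR : (0 : ℝ) < H := by exact_mod_cast (by omega : 0 < H)
  obtain ⟨θ, hθ, N₁, h1⟩ := window hs (show 0 < ε / (4 * K) by positivity)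
  obtain ⟨N₂, hN₂⟩ := eventually_atTop.1
    (((tendsto_rpow_atTop hθ).comp tendsto_natCast_atTop_atTop).eventually_ge_atTop (H : ℝ))
  obtain ⟨H₁, hH₁⟩ := hc (ε / 4) (by positivity)
  refine ⟨N₁ + N₂ + H₁ + 1, fun S hS => ?_⟩
  obtain ⟨δ, hδ, h2⟩ := h1 S hS
  have hδ01 := density_mem hs hδ
  refine ⟨δ, hδ, fun N hN x => ?_⟩
  have hN0 : (0 : ℝ) < N := by exact_mod_cast (by omega : 0 < N)
  have h3 := h2 N (by omega) H (by omega) (hN₂ N (by omega)) (fun n => f (R^[n] x) / K)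
    (fun n => by
      rw [abs_div, abs_of_pos hK0, div_le_one hK0]
      exact (hB _).trans (by linarith)) (c / K)
  have h4 : ∀ n : ℕ, |(H : ℝ)⁻¹ * ∑ h ∈ range H, f (R^[n + h] x) / K - c / K| ≤ ε / 4 / K := by
    intro n
    have h5 := hH₀ H (by omega) (R^[n] x)
    have h6 : (H : ℝ)⁻¹ * ∑ h ∈ range H, f (R^[n + h] x) / K - c / K =
        (∑ h ∈ range H, f (R^[h] (R^[n] x)) - c * H) / (H * K) := by
      have e1 : ∑ h ∈ range H, f (R^[n + h] x) / K = (∑ h ∈ range H, f (R^[h] (R^[n] x))) / K := by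
        rw [sum_div]
        apply sum_congr rfl; intro h _
        rw [← Function.iterate_add_apply, add_comm]
      rw [e1]
      field_simp
    rw [h6, abs_div, abs_of_pos (by positivity : (0 : ℝ) < H * K), div_le_div_iff₀ (by positivity) hK0]
    calc _ ≤ (ε / 4 * H) * K := mul_le_mul_of_nonneg_right h5 hK0.le
      _ = _ := by ring
  have h7 : |sumAlong s S N (fun n => f (R^[n] x)) - δ * ∑ n ∈ Icc 1 N, f (R^[n] x)| ≤ ε / 2 * N := by
    have e1 : sumAlong s S N (fun n => f (R^[n] x) / K) - δ * ∑ n ∈ Icc 1 N, f (R^[n] x) / K =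
        (sumAlong s S N (fun n => f (R^[n] x)) - δ * ∑ n ∈ Icc 1 N, f (R^[n] x)) / K := by
      unfold sumAlong
      rw [sub_div, mul_div_assoc, sum_div, sum_div]
      congr 1
      apply sum_congr rfl; intro n _
      ring
    rw [e1, abs_div, abs_of_pos hK0, div_le_iff₀ hK0] at h3
    refine h3.trans ?_
    calc (ε / (4 * K) * N + ∑ n ∈ Icc 1 N, |(H : ℝ)⁻¹ * ∑ h ∈ range H, f (R^[n + h] x) / K - c / K|) * K
        ≤ (ε / (4 * K) * N + ∑ _n ∈ Icc 1 N, ε / 4 / K) * K := by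
          apply mul_le_mul_of_nonneg_right _ hK0.le
          exact add_le_add le_rfl (sum_le_sum fun n _ => h4 n)
      _ = ε / 2 * N := by
          rw [sum_const, Nat.card_Icc, Nat.add_sub_cancel, nsmul_eq_mul]
          field_simp
          ring
  have h8 : |∑ n ∈ Icc 1 N, f (R^[n] x) - c * N| ≤ ε / 4 * N := by
    have h9 := hH₁ N (by omega) (R x)
    have e2 : ∑ n ∈ Icc 1 N, f (R^[n] x) = ∑ h ∈ range N, f (R^[h] (R x)) := by
      rw [range_eq_Ico]
      have := sum_Ico_add' (fun n => f (R^[n] x)) 0 N 1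
      simp only [Function.iterate_succ_apply] at this
      rw [this]
      apply sum_congr _ (fun _ _ => rfl)
      ext n; simp [Finset.mem_Icc, Finset.mem_Ico]
    rw [e2]
    exact h9
  have e3 : sumAlong s S N (fun n => f (R^[n] x)) - c * δ * N =
      (sumAlong s S N (fun n => f (R^[n] x)) - δ * ∑ n ∈ Icc 1 N, f (R^[n] x)) +
      δ * (∑ n ∈ Icc 1 N, f (R^[n] x) - c * N) := by ring
  rw [e3]
  refine (abs_add_le _ _).trans ?_
  rw [abs_mul, abs_of_nonneg hδ01.1]
  have h10 : δ * |∑ n ∈ Icc 1 N, f (R^[n] x) - c * N| ≤ 1 * (ε / 4 * N) :=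
    mul_le_mul hδ01.2 h8 (abs_nonneg _) zero_le_one
  nlinarith

theorem reduction {s : ℤ} (hs : s = 1 ∨ s = -1) {U : Set ℤ} (hU : Invariant U) (h : Rare s U) :
    ∀ x : ℤ, 0 < s * x → x ∉ U := by
  classical
  obtain ⟨X, _, μ, R, A, ψ, _, hR, hA, hpos, hψ, hbad⟩ := h
  intro y hy hyU
  apply hbad
  obtain ⟨δ, hδ0, hδ⟩ := Pool.Agent.Results.MP_d02c56_nt.FourierUniformity.dens_pos hs (inv_C (inv_of hU))
    ⟨y, hyU, hy⟩
  set f : X → ℝ := A.indicator (fun _ => (1 : ℝ)) with hf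
  have hfm : Measurable f := measurable_const.indicator hA
  have hfb : ∀ x, |f x| ≤ 1 := by
    intro x
    rw [hf, Set.indicator_apply]
    split_ifs <;> simp
  have hfi : Integrable f μ := (integrable_const (1 : ℝ)).indicator hA
  have hint : 0 < ∫ x, f x ∂μ := by
    rw [hf, integral_indicator_const (1 : ℝ) hA, smul_eq_mul, mul_one]
    exact ENNReal.toReal_pos hpos.ne' (measure_ne_top μ A)
  filter_upwards [pointwise_lim hs hR.toMeasurePreserving hfi,
    Pool.Agent.H165R3.BPE.birkhoff hR.toMeasurePreserving f hfm 1 hfb,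
    Pool.Agent.H165R3.birkhoff hR f hfm ⟨1, hfb⟩] with x hx1 hx2 hx3 hcon
  have e1 : (μ[f | MeasurableSpace.invariants R]) x = ∫ x, f x ∂μ := tendsto_nhds_unique hx2 hx3
  have h1 := hx1 U hU δ hδ
  rw [e1] at h1
  have h2 : ∀ᶠ N : ℕ in atTop, (δ * ∫ x, f x ∂μ) / 2 < (N : ℝ)⁻¹ * ∑ n ∈ Icc 1 N, g U (s * (n : ℤ)) * f (R^[n] x) :=
    (tendsto_order.1 h1).1 _ (by
      have : 0 < δ * ∫ x, f x ∂μ := by positivity
      linarith)
  have h3 : ∀ᶠ N : ℕ in atTop, ψ N < (δ * ∫ x, f x ∂μ) / 2 := (tendsto_order.1 hψ).2 _ (by positivity)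
  obtain ⟨N, h4, h5, h6, h7⟩ := (hcon.and_eventually (h2.and (h3.and (eventually_gt_atTop 0)))).exists
  have hN0 : (0 : ℝ) < N := by exact_mod_cast h7
  have h8 : ({n : ℕ | 1 ≤ n ∧ n ≤ N ∧ s * (n : ℤ) ∈ U ∧ R^[n] x ∈ A}.ncard : ℝ) =
      ∑ n ∈ Icc 1 N, g U (s * (n : ℤ)) * f (R^[n] x) := by
    have h9 : {n : ℕ | 1 ≤ n ∧ n ≤ N ∧ s * (n : ℤ) ∈ U ∧ R^[n] x ∈ A} =
        (((Icc 1 N).filter (fun n : ℕ => s * (n : ℤ) ∈ U ∧ R^[n] x ∈ A) : Finset ℕ) : Set ℕ) := by
      ext n
      simp only [Set.mem_ofPred_eq, coe_filter, Finset.mem_Icc, and_assoc]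
    rw [h9, Set.ncard_coe_finset, card_filter]
    push_cast
    apply sum_congr rfl; intro n _
    unfold g
    rw [hf, Set.indicator_apply, Set.indicator_apply]
    by_cases a1 : s * (n : ℤ) ∈ U <;> by_cases a2 : R^[n] x ∈ A <;> simp [a1, a2]
  rw [h8] at h4
  rw [lt_inv_mul_iff₀ hN0] at h5
  nlinarith

/-- (1) Let `s` be a sign. For every `ε > 0` there are `θ > 0` and `N₀` such that for all invariant
sets `S`, of density `δ` among the integers of sign `s`, all `N ≥ N₀`, all `1 ≤ H ≤ N ^ θ`, all weights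
`w` with values in `[-1, 1]` and all `c`, the sum of `w n` over the `n ≤ N` with `s n ∈ S` is `δ` times
the sum of `w n` over all `n ≤ N`, up to `ε N` plus the sum over `n ≤ N` of the distance from `c` of the
mean of `w` over `[n, n + H)`.
(2) Let `R` be a measure preserving transformation of a probability space and `f` integrable. For
almost every `x`: for every `ε > 0` there is `N₀` such that for all invariant sets `S` and all `N ≥ N₀`
the sum of `f (R ^ n x)` over the `n ≤ N` with `s n ∈ S` is `δ` times the sum over all `n ≤ N`, up to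
`ε N`; and for all invariant `S` that contain an integer of sign `s` the average of `f (R ^ n x)` over
the `n ≤ N` with `s n ∈ S` converges to the conditional expectation of `f` with respect to the
invariant sets of `R`.
(3) If the averages of the bounded function `f` over the orbits of a map `R` converge to `c` uniformly
in the point (for example `f` continuous, `R` uniquely ergodic), then the sum of `f (R ^ n x)` over
the `n ≤ N` with `s n ∈ S` is `c δ N` up to `ε N`, for all `N ≥ N₀ (ε)`, uniformly in `x` and `S`.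
(4) An invariant set contains no integer of sign `s` if for some ergodic transformation `R` and some
set `A` of positive measure, with positive probability, for infinitely many `N` only `o(N)` of the
`n ≤ N` with `R ^ n x ∈ A` are such that `s n` is in the set.
(5) If this holds for both signs and the set of the integers whose trajectories enter a cycle other
than the five known ones, then there is no such cycle. -/
theorem result :
    (∀ s : ℤ, (s = 1 ∨ s = -1) →
      (∀ ε : ℝ, 0 < ε → ∃ θ : ℝ, 0 < θ ∧ ∃ N₀ : ℕ, ∀ S : Set ℤ, Invariant S → ∃ δ : ℝ,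
        HasDensity s S δ ∧ ∀ N : ℕ, N₀ ≤ N → ∀ H : ℕ, 1 ≤ H → (H : ℝ) ≤ (N : ℝ) ^ θ →
        ∀ w : ℕ → ℝ, (∀ n, |w n| ≤ 1) → ∀ c : ℝ,
        |sumAlong s S N w - δ * ∑ n ∈ Finset.Icc 1 N, w n| ≤ ε * N +
          ∑ n ∈ Finset.Icc 1 N, |(H : ℝ)⁻¹ * ∑ h ∈ Finset.range H, w (n + h) - c|) ∧
      (∀ (X : Type) [MeasurableSpace X] (μ : Measure X) [IsProbabilityMeasure μ] (R : X → X)
        (f : X → ℝ), MeasurePreserving R μ μ → Integrable f μ → ∀ᵐ x ∂μ,
        (∀ ε : ℝ, 0 < ε → ∃ N₀ : ℕ, ∀ S : Set ℤ, Invariant S → ∃ δ : ℝ, HasDensity s S δ ∧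
          ∀ N : ℕ, N₀ ≤ N →
            |sumAlong s S N (fun n => f (R^[n] x)) - δ * ∑ n ∈ Finset.Icc 1 N, f (R^[n] x)| ≤ ε * N) ∧
        (∀ S : Set ℤ, Invariant S → (∃ y ∈ S, 0 < s * y) →
          Tendsto (fun N : ℕ => sumAlong s S N (fun n => f (R^[n] x)) / number s S N) atTop
            (𝓝 ((μ[f | MeasurableSpace.invariants R]) x)))) ∧
      (∀ (X : Type) (R : X → X) (f : X → ℝ) (B c : ℝ), (∀ x, |f x| ≤ B) →
        (∀ ε : ℝ, 0 < ε → ∃ H₀ : ℕ, ∀ H : ℕ, H₀ ≤ H → ∀ x,
          |∑ h ∈ Finset.range H, f (R^[h] x) - c * H| ≤ ε * H) →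
        ∀ ε : ℝ, 0 < ε → ∃ N₀ : ℕ, ∀ S : Set ℤ, Invariant S → ∃ δ : ℝ, HasDensity s S δ ∧
          ∀ N : ℕ, N₀ ≤ N → ∀ x, |sumAlong s S N (fun n => f (R^[n] x)) - c * δ * N| ≤ ε * N) ∧
      (∀ U : Set ℤ, Invariant U → Rare s U → ∀ x : ℤ, 0 < s * x → x ∉ U)) ∧
    (Rare 1 Other → Rare (-1) Other → ∀ (x : ℤ) (p : ℕ), 1 ≤ p → T^[p] x = x → x ∈ Known) := by
  refine ⟨fun s hs => ⟨fun ε hε => window hs hε, fun X _ μ _ R f hR hf => pointwise_all hs hR hf,
    fun X R f B c hB hc ε hε => uniform_all hs hB hc hε, fun U hU h => reduction hs hU h⟩,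
    fun h1 h2 x p hp hx => ?_⟩
  by_contra hcon
  have hmem : x ∈ Other := ⟨0, p, hp, hx, hcon⟩
  rcases lt_trichotomy x 0 with h | h | h
  · exact reduction (Or.inr rfl) other_inv h2 x (by omega) hmem
  · subst h
    exact hcon (by decide)
  · exact reduction (Or.inl rfl) other_inv h1 x (by omega) hmem

end Pool.Agent.Results.MP_edb5be_nt.PointwiseErgodicTheorem
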