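import Pool.Agent.Q37.BV.Bdh

set_option autoImplicit false

/-!
# The basins of the cycles of the 3x+1 map in almost all residue classes

Let `S` be a set of integers invariant under the 3x+1 map and its inverse, for example the set of the
integers whose trajectories reach a given cycle. (1) A theorem of Barban-Davenport-Halberstam type: the
variance of the numbers of the elements `0 < s x ≤ N` of `S` (`s = 1` or `s = -1`) over all residue
classes to all moduli `Q ≤ q < 2 Q` is at most `ε N ^ 2 + 288 Q N`, uniformly in `S` and `Q`. So almost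
all classes to almost all moduli up to a small multiple of `N` contain the expected number of elements
of `S`. (2) If `S` has an element of the sign `s`, then for every `ε > 0` there is `K` such that for
all but `ε Q ^ 2` of the pairs `(q, a)`, `Q ≤ q < 2 Q`, `0 ≤ a < q`, the class of `a` modulo `q` has an
element `x` of `S`, `0 < s x ≤ K Q`. (3) All cycles of the 3x+1 map are known if and only if for both
signs, for one `c > 0`, all `K` and arbitrarily large `Q` there are at least `c Q ^ 2` pairs `(q, a)`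
such that no integer `x`, `0 < s x ≤ K Q`, `s x ≡ a` modulo `q`, reaches an unknown cycle. Only at
most `K` integers of each class are concerned.

Method. The mean of the squares of the discrepancies is a weighted sum of the values of the
exponential sum of `S` at the Farey fractions. The fractions with large denominators are estimated with
the large sieve, those with bounded denominators with the equidistribution in the classes modulo `d`,
uniform in `S`, which follows as `S` is a union of intervals and a set of small periodic majorant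
(the level of distribution, see `Pool.Agent.Q37.BV.Gen`).
-/

namespace Pool.Agent.Results.MP_edb5be_nt.AlmostAllClasses

/-- The 3x+1 map. -/
def T (x : ℤ) : ℤ := if x % 2 = 0 then x / 2 else (3 * x + 1) / 2

/-- `S` is invariant under the 3x+1 map and its inverse. -/
def Invariant (S : Set ℤ) : Prop := ∀ x : ℤ, x ∈ S ↔ T x ∈ S

/-- The number of the elements `x` of `S` with `0 < s x ≤ N` and `s x ≡ a` modulo `q`. -/
noncomputable def count (S : Set ℤ) (s : ℤ) (N q : ℕ) (a : ℤ) : ℕ :=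
  {x : ℤ | 0 < s * x ∧ s * x ≤ N ∧ s * x ≡ a [ZMOD q] ∧ x ∈ S}.ncard

/-- The pairs `(q, a)`, `Q ≤ q < 2 Q`, `0 ≤ a < q`, such that no element `x` of `S` satisfies
`0 < s x ≤ X` and `s x ≡ a` modulo `q`. -/
def Missed (S : Set ℤ) (s : ℤ) (X Q : ℕ) : Set (ℕ × ℕ) :=
  {p : ℕ × ℕ | Q ≤ p.1 ∧ p.1 < 2 * Q ∧ p.2 < p.1 ∧
    ∀ x ∈ S, 0 < s * x → s * x ≤ X → ¬ s * x ≡ p.2 [ZMOD p.1]}

/-- The elements of the five known cycles. -/
def Known : Finset ℤ := {1, 2, 0, -1, -5, -7, -10, -17, -25, -37, -55, -82, -41, -61, -91, -136, -68, -34}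

/-- The trajectory of `x` reaches a cycle which is not one of the five known cycles. -/
def Unknown : Set ℤ := {x : ℤ | ∃ k p : ℕ, 1 ≤ p ∧ T^[p] (T^[k] x) = T^[k] x ∧ T^[k] x ∉ Known}

/-! ### proofs -/

open Finset Filter Topology Pool.Agent.Q37.BV Pool.Agent.H499R2.CO

theorem T_eq : T = Tz 1 := rfl

theorem inv_Z {S : Set ℤ} (hS : Invariant S) : InvZ S := hS

theorem modEq_iff (n a q : ℤ) : n ≡ a [ZMOD q] ↔ q ∣ n - a := by
  rw [Int.modEq_comm, Int.modEq_iff_dvd]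

theorem count_eq {s : ℤ} (hs : s = 1 ∨ s = -1) (S : Set ℤ) (N q : ℕ) (a : ℤ) :
    (count S s N q a : ℝ) = ∑ n ∈ Ico (1 : ℤ) (1 + N), ind q a n * FS S s n := by
  classical
  have hss : ∀ x : ℤ, s * (s * x) = x := by intro x; rcases hs with rfl | rfl <;> ring
  have e0 : count S s N q a = {n : ℕ | 1 ≤ n ∧ n ≤ N ∧ s * (n : ℤ) ∈ {x : ℤ | s * x ≡ a [ZMOD q] ∧ x ∈ S}}.ncard :=
    side_ncard hs {x : ℤ | s * x ≡ a [ZMOD q] ∧ x ∈ S} N
  have e1 : {n : ℕ | 1 ≤ n ∧ n ≤ N ∧ s * (n : ℤ) ∈ {x : ℤ | s * x ≡ a [ZMOD q] ∧ x ∈ S}} =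
      ((Icc 1 N).filter (fun n : ℕ => (q : ℤ) ∣ (n : ℤ) - a ∧ s * (n : ℤ) ∈ S) : Finset ℕ) := by
    ext n
    simp only [Set.mem_ofPred_eq, coe_filter, mem_Icc, modEq_iff, and_assoc, hss]
  rw [e0, e1, Set.ncard_coe_finset, card_filter, sum_Ico_nat]
  push_cast
  apply sum_congr rfl
  intro n hn
  rw [mem_Icc] at hn
  have h0 : (1 : ℤ) ≤ (n : ℤ) := by exact_mod_cast hn.1
  unfold ind FS
  by_cases h1 : (q : ℤ) ∣ (n : ℤ) - a
  · by_cases h2 : s * (n : ℤ) ∈ S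
    · rw [if_pos ⟨h1, h2⟩, if_pos h1, if_pos ⟨h0, h2⟩, mul_one]
    · rw [if_neg (fun h => h2 h.2), if_pos h1, if_neg (fun h => h2 h.2), mul_zero]
  · rw [if_neg (fun h => h1 h.1), if_neg h1, zero_mul]

theorem dF_eq {s : ℤ} (hs : s = 1 ∨ s = -1) (S : Set ℤ) (N q : ℕ) (a : ℤ) :
    dF (FS S s) N q a = (count S s N q a : ℝ) - count S s N 1 0 / q := by
  rw [count_eq hs, count_eq hs]
  unfold dF bal
  rw [sum_div, ← sum_sub_distrib]
  apply sum_congr rfl
  intro n _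
  have : ind 1 0 n = 1 := by unfold ind; rw [if_pos (by simp)]
  rw [this]
  ring

theorem missed_small {S : Set ℤ} (hS : Invariant S) {s : ℤ} (hs : s = 1 ∨ s = -1) (hne : ∃ x ∈ S, 0 < s * x)
    {ε : ℝ} (hε : 0 < ε) : ∃ K : ℕ, ∃ Q₀ : ℕ, ∀ Q : ℕ, Q₀ ≤ Q → ((Missed S s (K * Q) Q).ncard : ℝ) ≤ ε * Q ^ 2 := by
  classical
  obtain ⟨l, -, -, hl, hl2, -⟩ := side_density hs (inv_Z hS)
  have hl0 : 0 < l := hl2.2 hne
  obtain ⟨N₁, h1⟩ := bdh (show 0 < ε * l ^ 2 / 64 by positivity)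
  set K : ℕ := ⌈288 * 64 / (ε * l ^ 2)⌉₊ + 1 with hK
  have hK1 : 1 ≤ K := by omega
  have hK0 : (0 : ℝ) < K := by exact_mod_cast hK1
  have hKε : 288 * 64 / (ε * l ^ 2) ≤ K := by
    rw [hK]; push_cast
    have := Nat.le_ceil (288 * 64 / (ε * l ^ 2))
    linarith
  unfold HD at hl
  obtain ⟨N₂, h2⟩ := eventually_atTop.1 (hl.eventually (lt_mem_nhds (show l / 2 < l by linarith)))
  refine ⟨K, max (max N₁ N₂) 1, fun Q hQ => ?_⟩
  have hQ1 : N₁ ≤ Q := ((le_max_left _ _).trans (le_max_left _ _)).trans hQ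
  have hQ2 : N₂ ≤ Q := ((le_max_right _ _).trans (le_max_left _ _)).trans hQ
  have hQ3 : 1 ≤ Q := (le_max_right _ _).trans hQ
  set N := K * Q with hN
  have hQN : Q ≤ N := Nat.le_mul_of_pos_left Q hK1
  have h3 := h1 s hs (FS S s) (FS_win (inv_Z hS) hs) N (hQ1.trans hQN) Q hQ3
  have h4 := h2 N (hQ2.trans hQN)
  have hQ0 : (0 : ℝ) < Q := by exact_mod_cast hQ3
  have hNr : (N : ℝ) = K * Q := by rw [hN]; push_cast; ring
  have hN0 : (0 : ℝ) < N := by rw [hNr]; positivity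
  set c := (count S s N 1 0 : ℝ) with hc
  have hc1 : l / 2 * N ≤ c := by
    have e1 : c = ({n : ℕ | 1 ≤ n ∧ n ≤ N ∧ s * (n : ℤ) ∈ S}.ncard : ℝ) := by
      rw [hc, ← side_ncard hs S N]
      unfold count
      congr 2
      ext x
      simp only [Set.mem_ofPred_eq, modEq_iff, Nat.cast_one, one_dvd, true_and]
    rw [e1]
    rw [lt_div_iff₀ hN0] at h4
    exact h4.le
  set B := ((Ico Q (2 * Q)).sigma (fun q => (range q).filter (fun a : ℕ => count S s N q ((a : ℕ) : ℤ) = 0))) with hB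
  have e2 : (Missed S s (K * Q) Q).ncard ≤ #B := by
    have hsub : Missed S s (K * Q) Q ⊆ ((B.image (fun x : Σ _ : ℕ, ℕ => (x.1, x.2)) : Finset (ℕ × ℕ)) : Set (ℕ × ℕ)) := by
      rintro ⟨q, a⟩ ⟨g1, g2, g3, g4⟩
      rw [coe_image]
      refine ⟨⟨q, a⟩, ?_, rfl⟩
      rw [mem_coe, hB, mem_sigma, mem_filter, mem_Ico, mem_range]
      refine ⟨⟨g1, g2⟩, g3, ?_⟩
      unfold count
      have : {x : ℤ | 0 < s * x ∧ s * x ≤ N ∧ s * x ≡ (a : ℤ) [ZMOD q] ∧ x ∈ S} = ∅ := by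
        rw [Set.eq_empty_iff_forall_notMem]
        rintro x ⟨k1, k2, k3, k4⟩
        exact g4 x k4 k1 (by rw [hN] at k2; exact k2) k3
      rw [this, Set.ncard_empty]
    exact (Set.ncard_le_ncard hsub (Finset.finite_toSet _)).trans
      (by rw [Set.ncard_coe_finset]; exact card_image_le)
  have h5 : (#B : ℝ) * (c / (2 * Q)) ^ 2 ≤ ε * l ^ 2 / 64 * N ^ 2 + 288 * Q * N := by
    refine le_trans ?_ h3
    have e3 : (#B : ℝ) * (c / (2 * Q)) ^ 2 = ∑ q ∈ Ico Q (2 * Q), ∑ a ∈ range q with count S s N q ((a : ℕ) : ℤ) = 0,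
        (c / (2 * Q)) ^ 2 := by
      rw [hB, card_sigma]
      push_cast
      rw [sum_mul]
      apply sum_congr rfl
      intro q _
      rw [sum_const, nsmul_eq_mul]
    rw [e3]
    apply sum_le_sum
    intro q hq
    rw [mem_Ico] at hq
    have hq0 : (0 : ℝ) < q := by exact_mod_cast (by omega : 0 < q)
    have hq2 : (q : ℝ) ≤ 2 * Q := by exact_mod_cast hq.2.le
    calc ∑ a ∈ range q with count S s N q ((a : ℕ) : ℤ) = 0, (c / (2 * Q)) ^ 2
        ≤ ∑ a ∈ range q with count S s N q ((a : ℕ) : ℤ) = 0, (dF (FS S s) N q ((a : ℕ) : ℤ)) ^ 2 := by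
          apply sum_le_sum
          intro a ha
          rw [mem_filter] at ha
          rw [dF_eq hs, ha.2, Nat.cast_zero, zero_sub, neg_sq]
          apply pow_le_pow_left₀ (by positivity)
          exact div_le_div_of_nonneg_left (by positivity) hq0 hq2
      _ ≤ ∑ a ∈ range q, (dF (FS S s) N q ((a : ℕ) : ℤ)) ^ 2 :=
          sum_le_sum_of_subset_of_nonneg (filter_subset _ _) fun _ _ _ => sq_nonneg _
  have h6 : l / 4 * K ≤ c / (2 * Q) := by
    rw [le_div_iff₀ (by positivity)]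
    rw [hNr] at hc1
    linarith
  have h7 : (#B : ℝ) * (l / 4 * K) ^ 2 ≤ ε * l ^ 2 / 64 * N ^ 2 + 288 * Q * N := by
    refine le_trans (mul_le_mul_of_nonneg_left ?_ (Nat.cast_nonneg _)) h5
    exact pow_le_pow_left₀ (by positivity) h6 2
  have h8 : 288 * (Q : ℝ) * N ≤ ε * l ^ 2 / 64 * N ^ 2 := by
    have h9 : 288 ≤ ε * l ^ 2 / 64 * K := by
      rw [div_le_iff₀ (by positivity)] at hKε
      linarith
    rw [hNr]
    have h10 : 288 * ((Q : ℝ) * (K * Q)) ≤ (ε * l ^ 2 / 64 * K) * (Q * (K * Q)) :=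
      mul_le_mul_of_nonneg_right h9 (by positivity)
    nlinarith
  have h9 : (#B : ℝ) * (l / 4 * K) ^ 2 ≤ (ε / 2 * Q ^ 2) * (l / 4 * K) ^ 2 := by
    have e4 : (ε / 2 * (Q : ℝ) ^ 2) * (l / 4 * K) ^ 2 = ε * l ^ 2 / 32 * N ^ 2 := by
      rw [hNr]; ring
    rw [e4]
    linarith
  have h10 : (#B : ℝ) ≤ ε / 2 * Q ^ 2 := le_of_mul_le_mul_right h9 (by positivity)
  have h11 : ((Missed S s (K * Q) Q).ncard : ℝ) ≤ #B := by exact_mod_cast e2
  have h12 : 0 ≤ ε * (Q : ℝ) ^ 2 := by positivity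
  linarith

theorem T_sign {s : ℤ} (hs : s = 1 ∨ s = -1) {x : ℤ} (hx : 0 < s * x) : 0 < s * T x := by
  rw [T_eq]
  exact (sign_pos hs x).1 hx

theorem T_iter_sign {s : ℤ} (hs : s = 1 ∨ s = -1) (k : ℕ) : ∀ x : ℤ, 0 < s * x → 0 < s * T^[k] x := by
  induction k with
  | zero => intro x hx; exact hx
  | succ k ih =>
    intro x hx
    rw [Function.iterate_succ_apply]
    exact ih _ (T_sign hs hx)

theorem unknown_inv : Invariant Unknown := by
  intro x
  constructor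
  · rintro ⟨k, p, hp, h1, h2⟩
    cases k with
    | zero =>
      rw [Function.iterate_zero, id_eq] at h1 h2
      obtain ⟨r, rfl⟩ : ∃ r, p = r + 1 := ⟨p - 1, by omega⟩
      have h3 : T^[r] (T x) = x := by rw [← Function.iterate_succ_apply]; exact h1
      exact ⟨r, r + 1, by omega, by rw [h3]; exact h1, by rw [h3]; exact h2⟩
    | succ k =>
      rw [Function.iterate_succ_apply] at h1 h2
      exact ⟨k, p, hp, h1, h2⟩
  · rintro ⟨k, p, hp, h1, h2⟩
    refine ⟨k + 1, p, hp, ?_, ?_⟩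
    · rw [Function.iterate_succ_apply]; exact h1
    · rw [Function.iterate_succ_apply]; exact h2

theorem pairs_card (Q : ℕ) : Q ^ 2 ≤ {p : ℕ × ℕ | Q ≤ p.1 ∧ p.1 < 2 * Q ∧ p.2 < p.1}.ncard := by
  have h : ((Ico Q (2 * Q) ×ˢ range Q : Finset (ℕ × ℕ)) : Set (ℕ × ℕ)) ⊆
      {p : ℕ × ℕ | Q ≤ p.1 ∧ p.1 < 2 * Q ∧ p.2 < p.1} := by
    rintro ⟨q, a⟩ h
    rw [mem_coe, mem_product, mem_Ico, mem_range] at h
    exact ⟨h.1.1, h.1.2, by have := h.1.1; have := h.2; simp only at *; omega⟩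
  have hfin : {p : ℕ × ℕ | Q ≤ p.1 ∧ p.1 < 2 * Q ∧ p.2 < p.1}.Finite := by
    apply Set.Finite.subset (Finset.finite_toSet (range (2 * Q) ×ˢ range (2 * Q)))
    rintro ⟨q, a⟩ ⟨_, h2, h3⟩
    rw [mem_coe, mem_product, mem_range, mem_range]
    simp only at *
    omega
  have h2 := Set.ncard_le_ncard h hfin
  rw [Set.ncard_coe_finset, card_product, Nat.card_Ico, card_range, show 2 * Q - Q = Q by omega] at h2
  rw [sq]
  exact h2

/-- **The theorem.** -/
theorem result :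
    -- (1) the variance over all residue classes
    (∀ ε : ℝ, 0 < ε → ∃ N₀ : ℕ, ∀ S : Set ℤ, Invariant S → ∀ s : ℤ, s = 1 ∨ s = -1 →
      ∀ N : ℕ, N₀ ≤ N → ∀ Q : ℕ, 1 ≤ Q →
        ∑ q ∈ Finset.Ico Q (2 * Q), ∑ a ∈ Finset.range q,
          ((count S s N q (a : ℤ) : ℝ) - count S s N 1 0 / q) ^ 2 ≤ ε * N ^ 2 + 288 * Q * N) ∧
    -- (2) small elements in almost all residue classes
    (∀ S : Set ℤ, Invariant S → ∀ s : ℤ, s = 1 ∨ s = -1 → (∃ x ∈ S, 0 < s * x) → ∀ ε : ℝ, 0 < ε →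
      ∃ K : ℕ, ∃ Q₀ : ℕ, ∀ Q : ℕ, Q₀ ≤ Q → ((Missed S s (K * Q) Q).ncard : ℝ) ≤ ε * Q ^ 2) ∧
    -- (3) the cycles of the 3x+1 map
    ((∀ (x : ℤ) (p : ℕ), 1 ≤ p → T^[p] x = x → x ∈ Known) ↔
      ∀ s : ℤ, s = 1 ∨ s = -1 → ∃ c : ℝ, 0 < c ∧ ∀ K Q₀ : ℕ, ∃ Q : ℕ, Q₀ ≤ Q ∧
        c * Q ^ 2 ≤ ((Missed Unknown s (K * Q) Q).ncard : ℝ)) := by
  refine ⟨?_, ?_, ?_⟩
  · intro ε hε
    obtain ⟨N₀, h⟩ := bdh hε
    refine ⟨N₀, fun S hS s hs N hN Q hQ => ?_⟩
    have h1 := h s hs (FS S s) (FS_win (inv_Z hS) hs) N hN Q hQ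
    simp_rw [dF_eq hs] at h1
    exact h1
  · intro S hS s hs hne ε hε
    exact missed_small hS hs hne hε
  · constructor
    · intro hall s hs
      refine ⟨1, one_pos, fun K Q₀ => ⟨Q₀, le_rfl, ?_⟩⟩
      have e1 : Missed Unknown s (K * Q₀) Q₀ = {p : ℕ × ℕ | Q₀ ≤ p.1 ∧ p.1 < 2 * Q₀ ∧ p.2 < p.1} := by
        ext ⟨q, a⟩
        constructor
        · rintro ⟨h1, h2, h3, _⟩
          exact ⟨h1, h2, h3⟩
        · rintro ⟨h1, h2, h3⟩
          refine ⟨h1, h2, h3, ?_⟩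
          rintro x ⟨k, p, hp, h4, h5⟩
          exact absurd (hall _ p hp h4) h5
      rw [e1, one_mul]
      exact_mod_cast pairs_card Q₀
    · intro hmiss x p hp hx
      by_contra hcon
      have hxU : x ∈ Unknown := ⟨0, p, hp, hx, hcon⟩
      have hx0 : x ≠ 0 := by
        rintro rfl
        exact hcon (by decide)
      obtain ⟨s, hs, hsx⟩ : ∃ s : ℤ, (s = 1 ∨ s = -1) ∧ 0 < s * x := by
        rcases lt_or_gt_of_ne hx0 with h | h
        · exact ⟨-1, Or.inr rfl, by linarith⟩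
        · exact ⟨1, Or.inl rfl, by linarith⟩
      obtain ⟨c, hc, h1⟩ := hmiss s hs
      obtain ⟨K, Q₀, h2⟩ := missed_small unknown_inv hs ⟨x, hxU, hsx⟩ (show 0 < c / 2 by positivity)
      obtain ⟨Q, hQ, h3⟩ := h1 K (max Q₀ 1)
      have h4 := h2 Q ((le_max_left _ _).trans hQ)
      have hQ1 : 1 ≤ Q := (le_max_right _ _).trans hQ
      have hQ0 : (0 : ℝ) < Q := by exact_mod_cast hQ1
      have : 0 < c * (Q : ℝ) ^ 2 := by positivity
      linarith

end Pool.Agent.Results.MP_edb5be_nt.AlmostAllClasses
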