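import Mathlib
import Pool.Agent.W42.Cpx2

set_option autoImplicit false

/-!
Cycles of the 3x+1 map on the integers whose parity words are balanced have many different parity
words.
-/

namespace Pool.Agent.Results.MP_edb5be_nt.BalancedParityWords

/-- The 3x+1 map on the integers. -/
def T (x : ℤ) : ℤ := if x % 2 = 0 then x / 2 else (3 * x + 1) / 2

/-- `Z` is a cycle of `T`. -/
def IsCycle (Z : Finset ℤ) : Prop :=
  ∃ (x : ℤ) (p : ℕ), 1 ≤ p ∧ T^[p] x = x ∧ Z = (Finset.range p).image fun i => T^[i] x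

/-- the parity words of length `n` which can be read along `Z` -/
def words (Z : Finset ℤ) (n : ℕ) : Finset (Fin n → ℤ) :=
  Z.image fun x => fun j : Fin n => T^[(j : ℕ)] x % 2

/-- the number of odd integers among the first `k` iterates `x, T x, ..., T^(k-1) x` -/
def od (k : ℕ) (x : ℤ) : ℕ := ((Finset.range k).filter fun i => (T^[i] x) % 2 = 1).card

/-- all blocks of length `k` of the parity words of `Z` have between `a k - C` and `b k + C` ones -/
def Slopes (a b C : ℝ) (Z : Finset ℤ) : Prop :=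
  ∀ x ∈ Z, ∀ k : ℕ, a * k - C ≤ od k x ∧ (od k x : ℝ) ≤ b * k + C

/-- Let `θ = log 2 / log 3`.
(1) Let `a < θ < b` and `c < log 2 / (b log 3 - log 2) + log 2 / (log 2 - a log 3)`. For every `C`
there is `A` such that for every cycle `Z` all of whose blocks of length `k` (for every `k`) have
between `a k - C` and `b k + C` odd elements, and all `n ≥ A (1 + log |Z|)`, at least
`min (|Z|, c n)` different parity words of length `n` can be read along `Z`.
(2) For every `C` and `C'` only finitely many of these cycles have at most `c n + C'` parity words of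
length `n` for every `n`.
(3) For every `c` there is `δ > 0` such that for all `C` and `C'` there are only finitely many cycles
with at most `c n + C'` parity words of length `n` (for every `n`) all of whose blocks of length `k`
have `θ k + O (δ k + C)` odd elements (for every `k`). -/
theorem result :
    (∀ a b c : ℝ, a * Real.log 3 < Real.log 2 → Real.log 2 < b * Real.log 3 →
      c < Real.log 2 / (b * Real.log 3 - Real.log 2) + Real.log 2 / (Real.log 2 - a * Real.log 3) →
      ∀ C : ℝ,
        (∃ A : ℝ, 1 ≤ A ∧ ∀ Z : Finset ℤ, IsCycle Z → Slopes a b C Z →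
          ∀ n : ℕ, A * (1 + Real.log Z.card) ≤ n →
            min (Z.card : ℝ) (c * n) ≤ (words Z n).card) ∧
        ∀ C' : ℝ, {Z : Finset ℤ | IsCycle Z ∧ Slopes a b C Z ∧
          ∀ n : ℕ, ((words Z n).card : ℝ) ≤ c * n + C'}.Finite) ∧
    ∀ c : ℝ, ∃ δ : ℝ, 0 < δ ∧ ∀ C C' : ℝ, {Z : Finset ℤ | IsCycle Z ∧
      (∀ x ∈ Z, ∀ k : ℕ, |(od k x : ℝ) - Real.log 2 / Real.log 3 * k| ≤ δ * k + C) ∧
      ∀ n : ℕ, ((words Z n).card : ℝ) ≤ c * n + C'}.Finite := by
  have h2 : 0 < Real.log 2 := Real.log_pos (by norm_num)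
  have h3 : 0 < Real.log 3 := Real.log_pos (by norm_num)
  have key : ∀ a b c : ℝ, a * Real.log 3 < Real.log 2 → Real.log 2 < b * Real.log 3 →
      c < Real.log 2 / (b * Real.log 3 - Real.log 2) + Real.log 2 / (Real.log 2 - a * Real.log 3) →
      ∀ C : ℝ,
        (∃ A : ℝ, 1 ≤ A ∧ ∀ Z : Finset ℤ, IsCycle Z → Slopes a b C Z →
          ∀ n : ℕ, A * (1 + Real.log Z.card) ≤ n →
            min (Z.card : ℝ) (c * n) ≤ (words Z n).card) ∧
        ∀ C' : ℝ, {Z : Finset ℤ | IsCycle Z ∧ Slopes a b C Z ∧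
          ∀ n : ℕ, ((words Z n).card : ℝ) ≤ c * n + C'}.Finite := fun a b c ha hb hc C =>
    ⟨Pool.Agent.W42.Cpx.main a b C c ha hb hc,
      Pool.Agent.W42.Cpx.finite_low a b C c ha hb hc⟩
  refine ⟨key, fun c => ?_⟩
  -- `δ = log 2 / (log 3 (|c| + 1))`
  set δ : ℝ := Real.log 2 / (Real.log 3 * (|c| + 1)) with hδ
  have hc0 : 0 ≤ |c| := abs_nonneg c
  have hδ0 : 0 < δ := by positivity
  refine ⟨δ, hδ0, fun C C' => ?_⟩
  have hθ : Real.log 2 / Real.log 3 * Real.log 3 = Real.log 2 := by field_simp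
  have hδ3 : δ * Real.log 3 = Real.log 2 / (|c| + 1) := by rw [hδ]; field_simp
  have hpos : 0 < Real.log 2 / (|c| + 1) := by positivity
  have ha : (Real.log 2 / Real.log 3 - δ) * Real.log 3 < Real.log 2 := by
    rw [sub_mul, hθ, hδ3]; linarith
  have hb : Real.log 2 < (Real.log 2 / Real.log 3 + δ) * Real.log 3 := by
    rw [add_mul, hθ, hδ3]; linarith
  have hc : c < Real.log 2 / ((Real.log 2 / Real.log 3 + δ) * Real.log 3 - Real.log 2) +
      Real.log 2 / (Real.log 2 - (Real.log 2 / Real.log 3 - δ) * Real.log 3) := by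
    rw [add_mul, sub_mul, hθ, hδ3]
    have e1 : Real.log 2 / (Real.log 2 + Real.log 2 / (|c| + 1) - Real.log 2) = |c| + 1 := by
      field_simp; ring
    have e2 : Real.log 2 / (Real.log 2 - (Real.log 2 - Real.log 2 / (|c| + 1))) = |c| + 1 := by
      field_simp; ring
    rw [e1, e2]
    linarith [le_abs_self c]
  refine ((key _ _ c ha hb hc C).2 C').subset ?_
  rintro Z ⟨hZ, hs, hw⟩
  refine ⟨hZ, fun x hx k => ?_, hw⟩
  have h := abs_le.1 (hs x hx k)
  constructor
  · linarith [h.1]
  · linarith [h.2]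

end Pool.Agent.Results.MP_edb5be_nt.BalancedParityWords
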