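import Pool.Agent.Q49.AF.Cyc

set_option autoImplicit false

/-!
The basins of the cycles of the `3x+1` map on the integers, and the entrance times into the cycles, are
asymptotically independent of the arithmetical nature of the integers.

A test set is given by inequalities for arbitrary real additive functions (the number of prime factors,
`log (σ(n) / n)`, ...), and an arbitrary condition on the vector of the numbers of prime factors in given
arbitrary sets of primes (or any other additive function with few values at the primes) and on the list of the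
`k` largest prime factors. Let `Z` be a cycle, or a finite union of cycles, of integers of one sign `s`. In
every test set, up to `ε N`, the proportion of the `n ≤ N` such that the trajectory of `s n` enters `Z` is the
density `δ` of the basin of `Z`, and the entrance time has the same normal law as for all integers; this is
uniform in the test sets. For example the entrance time into a cycle is independent of the number of prime
factors (Erdős-Kac) and of the size of the largest prime factor (Dickman), and if almost all `n` in test sets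
of positive proportion are such that `s n` enters one of the known cycles, then all integers of sign `s` do.
-/

namespace Pool.Agent.Results.MP_edb5be_nt.EntranceLawsArithmetic

open Filter Topology

/-- the `3x+1` map on the integers -/
def T (x : ℤ) : ℤ := if x % 2 = 0 then x / 2 else (3 * x + 1) / 2

/-- The trajectory of `x` enters `Z` after exactly `k` steps. -/
def Enters (Z : Finset ℤ) (k : ℕ) (x : ℤ) : Prop := T^[k] x ∈ Z ∧ ∀ i < k, T^[i] x ∉ Z

/-- the number of odd terms among `x, T x, ..., T^(k-1) x` -/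
def odds (k : ℕ) (x : ℤ) : ℕ := ((Finset.range k).filter fun i => T^[i] x % 2 = 1).card

/-- `2 / log (4/3) * log n + x * log 3 * √(2 log n / (log (4/3))^3)` -/
noncomputable def bound (x : ℝ) (n : ℕ) : ℝ :=
  2 / Real.log (4 / 3) * Real.log n
    + x * (Real.log 3 * Real.sqrt (2 * Real.log n / Real.log (4 / 3) ^ 3))

/-- The distribution function of the standard normal law. -/
noncomputable def Phi (x : ℝ) : ℝ :=
  ProbabilityTheory.cdf (ProbabilityTheory.gaussianReal 0 1) x

/-- A multiplicative function with values in the closed unit disc. -/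
def Multiplicative (g : ℕ → ℂ) : Prop :=
  (∀ n, ‖g n‖ ≤ 1) ∧ ∀ m n : ℕ, Nat.Coprime m n → g (m * n) = g m * g n

/-- An additive function with values in a commutative monoid. -/
def Additive {A : Type} [AddCommMonoid A] (f : ℕ → A) : Prop :=
  ∀ m n : ℕ, Nat.Coprime m n → f (m * n) = f m + f n

/-- `h` has at most `r` different values at the primes. -/
def FewValues {A : Type} (r : ℕ) (h : ℕ → A) : Prop :=
  ∃ V : Finset A, V.card ≤ r ∧ ∀ p : ℕ, p.Prime → h p ∈ V

/-- The `k` largest prime factors of `n`, with multiplicity, in decreasing order (all prime factors, if `n` has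
fewer than `k`). -/
def top (k n : ℕ) : List ℕ := n.primeFactorsList.reverse.take k

/-- The test sets: `f i n ∈ I i` for `d` real additive functions `f i` and intervals `I i`, and
`(h n, top k n) ∈ B` for an additive function `h` with at most `r` values at the primes and any set `B`. -/
def IsTest (d r k : ℕ) (E : Set ℕ) : Prop :=
  ∃ (f : Fin d → ℕ → ℝ) (I : Fin d → Set ℝ) (A : Type) (_ : AddCommMonoid A) (h : ℕ → A) (B : Set (A × List ℕ)),
    (∀ i, Additive (f i)) ∧ (∀ i, (I i).OrdConnected) ∧ Additive h ∧ FewValues r h ∧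
    E = {n : ℕ | (∀ i, f i n ∈ I i) ∧ (h n, top k n) ∈ B}

/-- The number of the positive integers `n ≤ N` in `E` with the property `P`. -/
noncomputable def Count (N : ℕ) (P : ℕ → Prop) (E : Set ℕ) : ℕ := {n : ℕ | 1 ≤ n ∧ n ≤ N ∧ n ∈ E ∧ P n}.ncard

open scoped Classical in
/-- The property `P` has the frequency `l`, independently of the arithmetical nature: for all `d`, `r`, `k` and
`ε > 0`, if `N` is large, then for every test set `E` the number of the `n ≤ N` in `E` with the property `P` is
`l` times the number of the `n ≤ N` in `E`, up to `ε N`; and the sum of `(1_P(n) - l) g(n)` over the `n ≤ N` in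
`E` is at most `ε N` in absolute value for all multiplicative `g` with values in the unit disc. -/
def Independent (P : ℕ → Prop) (l : ℝ) : Prop := ∀ (d r k : ℕ) (ε : ℝ), 0 < ε → ∃ N₀ : ℕ, ∀ N : ℕ, N₀ ≤ N →
  ∀ E : Set ℕ, IsTest d r k E →
    |(Count N P E : ℝ) - l * Count N (fun _ => True) E| ≤ ε * N ∧
    ∀ g : ℕ → ℂ, Multiplicative g →
      ‖∑ n ∈ Finset.Icc 1 N, if n ∈ E then ((if P n then (1 : ℂ) else 0) - l) * g n else 0‖ ≤ ε * N

/-- The trajectory of `s n` enters `Z`, for the first time after `k ≤ bound x n` steps, `k ≡ a` modulo `m`, the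
number of odd terms before being `≡ b` modulo `m`. -/
def Level (s : ℤ) (Z : Finset ℤ) (m : ℕ) (a b : ℤ) (x : ℝ) (n : ℕ) : Prop :=
  ∃ k : ℕ, (k : ℝ) ≤ bound x n ∧ Enters Z k (s * n) ∧ (k : ℤ) ≡ a [ZMOD m] ∧ (odds k (s * n) : ℤ) ≡ b [ZMOD m]

theorem odds_eq (k : ℕ) (x : ℤ) : Pool.Agent.H499R2.LT.od 1 k x = (odds k x : ℤ) := by
  induction k with
  | zero => rfl
  | succ k ih =>
    rw [Pool.Agent.H499R2.LT.od_add, ih]
    unfold odds
    rw [Finset.range_add_one, Finset.filter_insert]
    have h1 : Pool.Agent.H499R2.LT.od 1 1 (T^[k] x) = if T^[k] x % 2 = 0 then 0 else 1 := by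
      rw [Pool.Agent.H499R2.LT.od, Pool.Agent.H499R2.LT.od, add_zero]
    change _ + Pool.Agent.H499R2.LT.od 1 1 (T^[k] x) = _
    rw [h1]
    rcases Int.emod_two_eq_zero_or_one (T^[k] x) with h | h
    · rw [if_pos h, if_neg (by omega)]
      simp
    · rw [if_neg (by omega), if_pos h, Finset.card_insert_of_notMem (by simp)]
      push_cast
      ring

/-- on a finite set every interval condition is given by a closed interval -/
theorem closed_of (f : ℕ → ℝ) {I : Set ℝ} (hI : I.OrdConnected) (N : ℕ) :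
    ∃ a b : ℝ, ∀ n ∈ Finset.Icc 1 N, f n ∈ I ↔ a ≤ f n ∧ f n ≤ b := by
  classical
  set V : Finset ℝ := ((Finset.Icc 1 N).image f).filter (fun y => y ∈ I) with hV
  rcases V.eq_empty_or_nonempty with h | h
  · refine ⟨1, 0, fun n hn => ⟨fun hf => ?_, fun hf => ?_⟩⟩
    · exfalso
      have : f n ∈ V := by
        rw [hV, Finset.mem_filter]; exact ⟨Finset.mem_image_of_mem f hn, hf⟩
      rw [h] at this
      exact Finset.notMem_empty _ this
    · exfalso; linarith [hf.1, hf.2]
  · refine ⟨V.min' h, V.max' h, fun n hn => ⟨fun hf => ?_, fun hf => ?_⟩⟩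
    · have : f n ∈ V := by
        rw [hV, Finset.mem_filter]; exact ⟨Finset.mem_image_of_mem f hn, hf⟩
      exact ⟨V.min'_le _ this, V.le_max' _ this⟩
    · have h1 := (Finset.mem_filter.1 (V.min'_mem h)).2
      have h2 := (Finset.mem_filter.1 (V.max'_mem h)).2
      exact hI.out h1 h2 ⟨hf.1, hf.2⟩

open scoped Classical in
theorem count_eq (N : ℕ) (P : ℕ → Prop) (E : Set ℕ) :
    (Count N P E : ℝ) = ∑ n ∈ Finset.Icc 1 N, if n ∈ E then (if P n then (1 : ℝ) else 0) else 0 := by
  have e1 : {n : ℕ | 1 ≤ n ∧ n ≤ N ∧ n ∈ E ∧ P n} =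
      ((Finset.Icc 1 N).filter (fun n : ℕ => n ∈ E ∧ P n) : Finset ℕ) := by
    ext n
    simp only [Set.mem_ofPred_eq, Finset.coe_filter, Finset.mem_Icc]
    tauto
  unfold Count
  rw [e1, Set.ncard_coe_finset, Finset.card_filter]
  push_cast
  apply Finset.sum_congr rfl; intro n _
  by_cases h1 : n ∈ E <;> by_cases h2 : P n <;> simp [h1, h2]

theorem independent_of {P : ℕ → Prop} {l : ℝ} (h : Pool.Agent.Q49.AF.RX P l) : Independent P l := by
  classical
  intro d r k ε hε
  obtain ⟨N0, hN0, H⟩ := h (d + d) r k (min ε 1) (lt_min hε one_pos) (min_le_right _ _)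
  refine ⟨N0, fun N hN E hE => ?_⟩
  obtain ⟨f, I, A, instA, u, B, hf, hI, hu, hfv, hEq⟩ := hE
  have hmem : ∀ n, n ∈ E ↔ ((∀ i, f i n ∈ I i) ∧ (u n, top k n) ∈ B) := fun n => by rw [hEq]; exact Iff.rfl
  clear hEq
  obtain ⟨V, hVr, hV⟩ := hfv
  have hab := fun i => closed_of (f i) (hI i) N
  choose a b hab using hab
  have key : ∀ g : ℕ → ℂ, Multiplicative g →
      ‖∑ n ∈ Finset.Icc 1 N, if n ∈ E then ((if P n then (1 : ℂ) else 0) - l) * g n else 0‖ ≤ ε * N := by
    intro g hg
    have h1 := H N hN g hg (Fin.append f (fun i n => - f i n)) (by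
      intro i
      refine Fin.addCases (fun j => ?_) (fun j => ?_) i
      · rw [Fin.append_left]; exact hf j
      · rw [Fin.append_right]
        intro m n hmn
        simp only
        rw [hf j m n hmn]; ring) (Fin.append b (fun i => - a i)) A u hu V hV hVr
        (fun v a => if (a, v) ∈ B then 1 else 0) (fun v a => by split_ifs <;> simp)
    have e1 : ∑ n ∈ Finset.Icc 1 N, (if n ∈ E then ((if P n then (1 : ℂ) else 0) - l) * g n else 0)
        = ∑ n ∈ Finset.Icc 1 N, ((if P n then (1 : ℂ) else 0) - l) *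
          Pool.Agent.Q49.AF.cls g (Fin.append f (fun i n => - f i n)) (Fin.append b (fun i => - a i)) u
            (fun n a => if (a, Pool.Agent.Q49.AF.top k n) ∈ B then 1 else 0) n := by
      apply Finset.sum_congr rfl
      intro n hn
      have hiff : (∀ i, f i n ∈ I i) ↔ ∀ i : Fin (d + d), Fin.append f (fun i n => - f i n) i n ≤ Fin.append b (fun i => - a i) i := by
        constructor
        · intro h i
          refine Fin.addCases (fun j => ?_) (fun j => ?_) i
          · rw [Fin.append_left, Fin.append_left]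
            exact ((hab j n hn).1 (h j)).2
          · rw [Fin.append_right, Fin.append_right]
            exact neg_le_neg ((hab j n hn).1 (h j)).1
        · intro h j
          refine (hab j n hn).2 ⟨?_, ?_⟩
          · have := h (Fin.natAdd d j)
            rw [Fin.append_right, Fin.append_right] at this
            exact neg_le_neg_iff.1 this
          · have := h (Fin.castAdd d j)
            rwa [Fin.append_left, Fin.append_left] at this
      unfold Pool.Agent.Q49.AF.cls
      by_cases h : ∀ i, f i n ∈ I i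
      · rw [if_pos (hiff.1 h)]
        beta_reduce
        by_cases h' : (u n, top k n) ∈ B
        · have h'' : (u n, Pool.Agent.Q49.AF.top k n) ∈ B := h'
          rw [if_pos ((hmem n).2 ⟨h, h'⟩), if_pos h'', mul_one]
        · have h'' : (u n, Pool.Agent.Q49.AF.top k n) ∉ B := h'
          rw [if_neg (fun h3 => h' ((hmem n).1 h3).2), if_neg h'', mul_zero, mul_zero]
      · rw [if_neg (fun h' => h (hiff.2 h')), mul_zero, if_neg (fun h3 => h ((hmem n).1 h3).1)]
    rw [e1]
    exact h1.trans (mul_le_mul_of_nonneg_right (min_le_left _ _) (Nat.cast_nonneg _))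
  refine ⟨?_, key⟩
  have h1 := key (fun _ => 1) ⟨fun _ => by simp, fun _ _ _ => by simp⟩
  rw [count_eq, count_eq, Finset.mul_sum, ← Finset.sum_sub_distrib, ← Real.norm_eq_abs, ← Complex.norm_real]
  refine le_trans (le_of_eq ?_) h1
  congr 1
  rw [Complex.ofReal_sum]
  apply Finset.sum_congr rfl; intro n _
  simp only [mul_one, if_true]
  by_cases h2 : n ∈ E
  · rw [if_pos h2, if_pos h2, if_pos h2]
    by_cases h3 : P n
    · rw [if_pos h3, if_pos h3]; push_cast; ring
    · rw [if_neg h3, if_neg h3]; push_cast; ring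
  · rw [if_neg h2, if_neg h2, if_neg h2]; simp

/-- limit laws -/
theorem laws {P : ℕ → Prop} {l : ℝ} (hP : Independent P l) {d r k : ℕ}
    {E : ℕ → Set ℕ} (hE : ∀ N, IsTest d r k (E N))
    {p : ℝ} (h : Tendsto (fun N : ℕ => (Count N (fun _ => True) (E N) : ℝ) / N) atTop (𝓝 p)) :
    Tendsto (fun N : ℕ => (Count N P (E N) : ℝ) / N) atTop (𝓝 (l * p)) := by
  have h0 : Tendsto (fun N : ℕ => (Count N P (E N) : ℝ) / N
      - l * ((Count N (fun _ => True) (E N) : ℝ) / N)) atTop (𝓝 0) := by
    rw [Metric.tendsto_atTop]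
    intro ε hε
    obtain ⟨N0, H⟩ := hP d r k (ε / 2) (by positivity)
    refine ⟨N0 + 1, fun N hN => ?_⟩
    have hN0 : (0 : ℝ) < N := by exact_mod_cast (by omega : 0 < N)
    have h1 := (H N (by omega) (E N) (hE N)).1
    rw [Real.dist_eq, sub_zero]
    have e1 : (Count N P (E N) : ℝ) / N - l * ((Count N (fun _ => True) (E N) : ℝ) / N)
        = ((Count N P (E N) : ℝ) - l * Count N (fun _ => True) (E N)) / N := by ring
    rw [e1, abs_div, abs_of_pos hN0, div_lt_iff₀ hN0]
    nlinarith
  have h1 := h0.add (h.const_mul l)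
  rw [zero_add] at h1
  refine h1.congr fun N => ?_
  ring

theorem basin_inv {Z : Finset ℤ} (hZ : ∀ z ∈ Z, T z ∈ Z) : Pool.Agent.H499R2.ND.Inv 1 {x : ℤ | ∃ k, T^[k] x ∈ Z} := by
  intro x
  constructor
  · rintro ⟨k, hk⟩
    refine ⟨k, ?_⟩
    change T^[k] (T x) ∈ Z
    rw [← Function.iterate_succ_apply, Function.iterate_succ_apply']
    exact hZ _ hk
  · rintro ⟨k, hk⟩
    exact ⟨k + 1, by rw [Function.iterate_succ_apply]; exact hk⟩

theorem inv_compl {S : Set ℤ} (h : Pool.Agent.H499R2.ND.Inv 1 S) : Pool.Agent.H499R2.ND.Inv 1 Sᶜ :=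
  fun x => not_congr (h x)

open Pool.Agent.H499R2.ND in
theorem cnt_compl (P : ℕ → Prop) (N : ℕ) : cnt P N + cnt (fun n => ¬ P n) N = N := by
  classical
  rw [cnt_eq, cnt_eq]
  have h := Finset.card_filter_add_card_filter_not (s := Finset.Icc 1 N) P
  rw [Nat.card_Icc, Nat.add_sub_cancel] at h
  exact_mod_cast h

theorem full_iff {s : ℤ} (hs : s = 1 ∨ s = -1) {Z : Finset ℤ} (hZ : ∀ z ∈ Z, T z ∈ Z) {δ : ℝ}
    (hδ : Pool.Agent.H499R2.ND.Dn (fun n : ℕ => ∃ k : ℕ, T^[k] (s * n) ∈ Z) δ) :
    δ = 1 ↔ ∀ x : ℤ, 0 < s * x → ∃ k, T^[k] x ∈ Z := by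
  constructor
  · intro h1 x hx
    by_contra hcon
    have hinv := inv_compl (basin_inv hZ)
    obtain ⟨δ', _, _, hδ'⟩ := Pool.Agent.H499R2.ND.dens_side (d := 1) odd_one (by norm_num) hs hinv
    have h2 := Pool.Agent.H499R2.ND.one_pos hs hinv hcon hx hδ'
    have h3 := Pool.Agent.H499R2.LT.dn_side hδ'
    have h4 : Pool.Agent.H499R2.ND.Dn (fun n : ℕ => ¬ ∃ k : ℕ, T^[k] (s * n) ∈ Z) δ' :=
      Pool.Agent.H499R2.LT.Dn_iff (fun n _ => Iff.rfl) h3
    have h5 := hδ.add h4
    have h6 : Tendsto (fun N : ℕ => (1 : ℝ)) atTop (𝓝 (δ + δ')) := by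
      refine h5.congr' ?_
      filter_upwards [eventually_ge_atTop 1] with N hN
      have hN0 : (N : ℝ) ≠ 0 := by
        have : (0 : ℝ) < N := by exact_mod_cast hN
        exact this.ne'
      rw [← add_div, cnt_compl, div_self hN0]
    have h7 := tendsto_nhds_unique h6 tendsto_const_nhds
    linarith
  · intro h
    refine tendsto_nhds_unique hδ ?_
    refine (tendsto_const_nhds (x := (1 : ℝ))).congr' ?_
    filter_upwards [eventually_ge_atTop 1] with N hN
    have hN0 : (N : ℝ) ≠ 0 := by
      have : (0 : ℝ) < N := by exact_mod_cast hN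
      exact this.ne'
    classical
    have h1 : Pool.Agent.H499R2.ND.cnt (fun n : ℕ => ∃ k : ℕ, T^[k] (s * n) ∈ Z) N = N := by
      rw [Pool.Agent.H499R2.ND.cnt_eq, Finset.filter_true_of_mem, Nat.card_Icc, Nat.add_sub_cancel]
      intro n hn
      rw [Finset.mem_Icc] at hn
      apply h
      have h3 : s * (s * (n : ℤ)) = n := by rcases hs with rfl | rfl <;> ring
      rw [h3]
      exact_mod_cast hn.1
    rw [h1, div_self hN0]

/-- a finite closed set of nonzero integers contains an integer prime to `3` -/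
theorem exists_prime3 {s : ℤ} {Z : Finset ℤ} (hne : Z.Nonempty) (hZ : ∀ z ∈ Z, T z ∈ Z) (hsZ : ∀ z ∈ Z, 0 < s * z) :
    ∃ a ∈ Z, 0 < s * a ∧ ¬ (3 : ℤ) ∣ a := by
  obtain ⟨x, hx⟩ := hne
  have hit : ∀ j : ℕ, T^[j] x ∈ Z := by
    intro j
    induction j with
    | zero => exact hx
    | succ j ih => rw [Function.iterate_succ_apply']; exact hZ _ ih
  obtain ⟨i, j, hij, he⟩ : ∃ i j : ℕ, i < j ∧ T^[i] x = T^[j] x := by
    have h1 : ¬ Function.Injective (fun j : ℕ => (⟨T^[j] x, hit j⟩ : ↥Z)) := fun h => by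
      exact (not_injective_infinite_finite _) h
    unfold Function.Injective at h1
    push Not at h1
    obtain ⟨i, j, h2, h3⟩ := h1
    have h4 : T^[i] x = T^[j] x := congrArg Subtype.val h2
    rcases lt_or_gt_of_ne h3 with h | h
    · exact ⟨i, j, h, h4⟩
    · exact ⟨j, i, h, h4.symm⟩
  have hper : T^[j - i] (T^[i] x) = T^[i] x := by
    rw [← Function.iterate_add_apply, show j - i + i = j by omega, he]
  have h0 : T^[i] x ≠ 0 := by
    intro h
    have := hsZ _ (hit i)
    rw [h, mul_zero] at this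
    exact lt_irrefl _ this
  obtain ⟨a, ha, ha3⟩ := Pool.Agent.H499R2.LT.CY.prime3 (T := T) h0 (by omega : 1 ≤ j - i)
    (fun y hy => by unfold T; rw [if_pos hy]) (fun y hy => by unfold T; rw [if_neg (by omega)]) hper
  obtain ⟨l, _, rfl⟩ := Finset.mem_image.1 ha
  refine ⟨_, ?_, ?_, ha3⟩
  · rw [← Function.iterate_add_apply]; exact hit _
  · rw [← Function.iterate_add_apply]; exact hsZ _ (hit _)

/-- THE ENTRANCE TIMES INTO THE CYCLES AND THE ARITHMETICAL NATURE OF THE INTEGERS. Let `s` be a sign and `Z` a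
finite nonempty set of integers of sign `s` with `T Z ⊆ Z`, for example a cycle or a finite union of cycles.
There is `0 < δ ≤ 1`, equal to `1` if and only if the trajectories of all integers of sign `s` enter `Z`, such that
independently of the arithmetical nature (in the sense of `Independent`): (1) the `n` such that the trajectory
of `s n` enters `Z` have the frequency `δ`, and for all `m ≥ 1`, `a`, `b` and real `x`, those for which it does so
after `k ≤ bound x n` steps, `k ≡ a` and the number of odd terms before `≡ b` modulo `m`, have the frequency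
`δ Phi x / m ^ 2`. (2) JOINT LIMIT LAWS. Let the test sets `E N` depend on `N` in any way. If the proportion of
the `n ≤ N` in `E N` tends to `p`, then the proportion of those which moreover are in the second class of (1)
tends to `δ Phi x / m ^ 2 * p`. (3) If for some test sets `E N` and some `κ > 0`, for infinitely many `N`, at least
`κ N` of the `n ≤ N` are in `E N` and for almost all of these the trajectory of `s n` enters `Z`, then the
trajectories of all integers of sign `s` enter `Z`. -/
theorem result (s : ℤ) (hs : s = 1 ∨ s = -1) (Z : Finset ℤ) (hne : Z.Nonempty) (hZ : ∀ z ∈ Z, T z ∈ Z)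
    (hsZ : ∀ z ∈ Z, 0 < s * z) :
    ∃ δ : ℝ, 0 < δ ∧ δ ≤ 1 ∧ (δ = 1 ↔ ∀ x : ℤ, 0 < s * x → ∃ k, T^[k] x ∈ Z) ∧
      Independent (fun n => ∃ k, T^[k] (s * n) ∈ Z) δ ∧
      (∀ (m : ℕ) (a b : ℤ) (x : ℝ), 1 ≤ m → Independent (Level s Z m a b x) (δ * Phi x / m ^ 2) ∧
        ∀ (d r k : ℕ) (E : ℕ → Set ℕ), (∀ N, IsTest d r k (E N)) → ∀ p : ℝ,
          Tendsto (fun N : ℕ => (Count N (fun _ => True) (E N) : ℝ) / N) atTop (𝓝 p) →
          Tendsto (fun N : ℕ => (Count N (Level s Z m a b x) (E N) : ℝ) / N) atTop (𝓝 (δ * Phi x / m ^ 2 * p))) ∧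
      ∀ (d r k : ℕ) (E : ℕ → Set ℕ), (∀ N, IsTest d r k (E N)) → ∀ (κ : ℝ) (ψ : ℕ → ℝ), 0 < κ →
        Tendsto ψ atTop (𝓝 0) →
        (∃ᶠ N : ℕ in atTop, κ * N ≤ Count N (fun _ => True) (E N) ∧
          (Count N (fun n => ¬ ∃ k, T^[k] (s * n) ∈ Z) (E N) : ℝ) ≤ ψ N * N) →
        ∀ x : ℤ, 0 < s * x → ∃ k, T^[k] x ∈ Z := by
  classical
  obtain ⟨δ, h0, h1, hpos, hD, hB, hL⟩ := Pool.Agent.Q49.AF.en_laws hs (Z := Z) hZ
  have hδ0 : 0 < δ := hpos (exists_prime3 hne hZ hsZ)
  have hfull := full_iff hs hZ hD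
  have hA : Independent (fun n => ∃ k, T^[k] (s * n) ∈ Z) δ := independent_of hB
  refine ⟨δ, hδ0, h1, hfull, hA, fun m a b x hm => ?_, ?_⟩
  · have hLv : Independent (Level s Z m a b x) (δ * Phi x / m ^ 2) := by
      have h6 := hL x m a b hm
      have e : δ / (m : ℝ) ^ 2 * Pool.Agent.H499R2.ND.Phi x = δ * Phi x / m ^ 2 := by
        rw [Pool.Agent.H499R2.ND.phi_cdf]; unfold Phi; ring
      rw [e] at h6
      refine independent_of (Pool.Agent.Q49.AF.RX_congr (fun n _ => ?_) h6)
      refine exists_congr fun k => ?_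
      rw [odds_eq]
      exact Iff.rfl
    exact ⟨hLv, fun d r k E hE p hp => laws hLv hE hp⟩
  · intro d r k E hE κ ψ hκ hψ h
    refine hfull.1 ?_
    by_contra hcon
    have hδ1 : 0 < 1 - δ := by
      rcases h1.lt_or_eq with h6 | h6
      · linarith
      · exact absurd h6 hcon
    obtain ⟨N0, H⟩ := hA d r k ((1 - δ) * κ / 2) (by positivity)
    have h6 : ∀ᶠ N : ℕ in atTop, ψ N < (1 - δ) * κ / 2 := (tendsto_order.1 hψ).2 _ (by positivity)
    obtain ⟨N, ⟨h7, h8⟩, h9, h10⟩ := (h.and_eventually (h6.and (eventually_ge_atTop (N0 + 1)))).exists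
    have hNp : (0 : ℝ) < N := by exact_mod_cast (by omega : 0 < N)
    have h11 := (abs_le.1 (H N (by omega) (E N) (hE N)).1).2
    have h12 : (Count N (fun _ => True) (E N) : ℝ)
        = Count N (fun n => ∃ k, T^[k] (s * n) ∈ Z) (E N)
          + Count N (fun n => ¬ ∃ k, T^[k] (s * n) ∈ Z) (E N) := by
      rw [count_eq, count_eq, count_eq, ← Finset.sum_add_distrib]
      apply Finset.sum_congr rfl; intro n _
      by_cases h13 : n ∈ E N
      · rw [if_pos h13, if_pos h13, if_pos h13]
        by_cases h14 : ∃ k, T^[k] (s * n) ∈ Z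
        · rw [if_pos trivial, if_pos h14, if_neg (not_not.2 h14)]; norm_num
        · rw [if_pos trivial, if_neg h14, if_pos h14]; norm_num
      · rw [if_neg h13, if_neg h13, if_neg h13]; norm_num
    have h15 : ψ N * N < (1 - δ) * κ / 2 * N := mul_lt_mul_of_pos_right h9 hNp
    have h16 : (1 - δ) * (κ * N) ≤ (1 - δ) * Count N (fun _ => True) (E N) :=
      mul_le_mul_of_nonneg_left h7 hδ1.le
    have h17 : (Count N (fun n => ∃ k, T^[k] (s * n) ∈ Z) (E N) : ℝ) - δ * Count N (fun _ => True) (E N)
        ≤ (1 - δ) * κ / 2 * N := h11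
    linarith

end Pool.Agent.Results.MP_edb5be_nt.EntranceLawsArithmetic
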